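import Pool.Agent.H18.N6F.Targets
import Pool.Agent.H34.N6.LibB

/-!
# Row FKND: the pencil of the model has no isotropic kernel vectors
-/

set_option autoImplicit false

open Polynomial NumberField IsDedekindDomain Matrix Pool.Agent.H32.QC Pool.Agent.H34.N6
  Pool.Agent.H18.N6F

namespace Pool.Agent.H29.N6F

theorem not_dvd_pol {F : Type*} [Field F] {P : F[X]} (h7 : P.natDegree = 7) {x : Fin 7 → F}
    (hx : x ≠ 0) (h : P ∣ pol x) : False := by
  have h0 : pol x ≠ 0 := fun h0 => hx (pol_eq_zero.1 h0)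
  have h1 := Polynomial.natDegree_le_of_dvd h h0
  have h2 := natDegree_pol x
  omega

theorem lam_mul_root {F : Type*} [Field F] {P R : F[X]} {e : F} (hP : P.Monic)
    (h7 : P.natDegree = 7) (hR : P = (X - C e) * R) (hRm : R.Monic) (hR6 : R.natDegree = 6)
    (h : F[X]) : lam P (h * R) = eval e h := by
  have h1 : lam P (h * R) = lam P (C (eval e h) * R) := by
    apply lam_congr hP
    have h2 : (X - C e) ∣ h - C (eval e h) := by
      rw [Polynomial.dvd_iff_isRoot]
      simp
    rw [← sub_mul, hR]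
    exact mul_dvd_mul_right h2 R
  have h3 : lam P R = 1 := by
    rw [lam_of_lt hP]
    · rw [h7]
      have h4 : R.coeff R.natDegree = 1 := hRm
      rw [hR6] at h4
      exact h4
    · apply Polynomial.degree_lt_degree
      omega
  rw [h1, lam_C_mul, h3, mul_one]

theorem pf_KND : T_KND := by
  intro F _ P D hP h7 hsep hD θ hθ μ x hx hq
  have h1 : ∀ y : Fin 7 → F, lam P ((D * (1 - C μ * (X - C θ))) * pol x * pol y) = 0 := by
    intro y
    have h2 : y ⬝ᵥ (gA P D 0 *ᵥ x) = μ * (y ⬝ᵥ (ft P D θ *ᵥ x)) := by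
      rw [hq, dotProduct_smul, smul_eq_mul]
    rw [gA_bilin, ft_bilin, ← lam_C_mul] at h2
    have h3 : (D * (1 - C μ * (X - C θ))) * pol x * pol y =
        D * X ^ 0 * pol y * pol x - C μ * (D * (X - C θ) * pol y * pol x) := by
      ring
    rw [h3, lam_sub, h2, sub_self]
  have h2 : P ∣ (D * (1 - C μ * (X - C θ))) * pol x := by
    apply lam_nondeg hP h7
    intro j
    have h3 := h1 (Pi.single j 1)
    rw [pol_single] at h3
    exact h3
  have h3 : P ∣ (1 - C μ * (X - C θ)) * pol x := by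
    rw [mul_assoc] at h2
    exact hD.dvd_of_dvd_mul_left h2
  by_cases hμ : μ = 0
  · exfalso
    rw [hμ, C_0, zero_mul, sub_zero, one_mul] at h3
    exact not_dvd_pol h7 hx h3
  obtain ⟨e, he⟩ : ∃ e : F, e = θ + μ⁻¹ := ⟨_, rfl⟩
  have h4 : (1 - C μ * (X - C θ)) = -(C μ * (X - C e)) := by
    have h5 : C μ * C μ⁻¹ = (1 : F[X]) := by
      rw [← C_mul, mul_inv_cancel₀ hμ, C_1]
    rw [he, C_add]
    linear_combination (-1 : F[X]) * h5
  have h5 : P ∣ (X - C e) * pol x := by
    rw [h4] at h3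
    have h6 : C μ⁻¹ * C μ = (1 : F[X]) := by
      rw [← C_mul, inv_mul_cancel₀ hμ, C_1]
    have h7 : (X - C e) * pol x = (-C μ⁻¹) * (-(C μ * (X - C e)) * pol x) := by
      linear_combination (-(X - C e) * pol x) * h6
    rw [h7]
    exact Dvd.dvd.mul_left h3 _
  have h6 : eval e P = 0 := by
    by_contra h
    have h8 := (coprime_X_sub h).dvd_of_dvd_mul_left h5
    exact not_dvd_pol h7 hx h8
  obtain ⟨R, hR⟩ := Polynomial.dvd_iff_isRoot.2 h6
  have hRm : R.Monic := by
    rw [hR] at hP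
    exact Monic.of_mul_monic_left (monic_X_sub_C e) hP
  have hR6 : R.natDegree = 6 := by
    have h8 := h7
    rw [hR, (monic_X_sub_C e).natDegree_mul hRm, natDegree_X_sub_C] at h8
    omega
  obtain ⟨h, hh⟩ : R ∣ pol x := by
    have h8 : (X - C e) * R ∣ (X - C e) * pol x := by
      rw [← hR]
      exact h5
    exact (mul_dvd_mul_iff_left (X_sub_C_ne_zero e)).1 h8
  have hx0 : pol x ≠ 0 := fun h0 => hx (pol_eq_zero.1 h0)
  have hh0 : h ≠ 0 := by
    intro h0
    rw [h0, mul_zero] at hh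
    exact hx0 hh
  have hdeg : h.natDegree = 0 := by
    have h8 := natDegree_pol x
    rw [hh, natDegree_mul hRm.ne_zero hh0] at h8
    omega
  obtain ⟨c, hc⟩ := Polynomial.natDegree_eq_zero.1 hdeg
  have hc0 : c ≠ 0 := by
    intro h0
    rw [h0, C_0] at hc
    exact hh0 hc.symm
  have hval : x ⬝ᵥ (ft P D θ *ᵥ x) = eval e D * (e - θ) * (c * eval e R) * c := by
    rw [ft_bilin, hh, ← hc]
    have h8 : D * (X - C θ) * (R * C c) * (R * C c) = (D * (X - C θ) * (C c * R) * C c) * R := by
      ring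
    rw [h8, lam_mul_root hP h7 hR hRm hR6]
    simp only [eval_mul, eval_sub, eval_X, eval_C]
  have hDe : eval e D ≠ 0 := by
    intro h0
    obtain ⟨a, b, hab⟩ := hD
    have h8 := congrArg (eval e) hab
    rw [eval_add, eval_mul, eval_mul, h6, h0, mul_zero, mul_zero, add_zero, eval_one] at h8
    exact zero_ne_one h8
  have hRe : eval e R ≠ 0 := by
    intro h0
    obtain ⟨a, b, hab⟩ := hsep
    have h8 := congrArg (eval e) hab
    have h9 : eval e (derivative P) = 0 := by
      rw [hR, derivative_mul, eval_add, eval_mul, eval_mul, h0]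
      simp
    rw [eval_add, eval_mul, eval_mul, h6, h9, mul_zero, mul_zero, add_zero, eval_one] at h8
    exact zero_ne_one h8
  have heθ : e - θ ≠ 0 := by
    rw [he, add_sub_cancel_left]
    exact inv_ne_zero hμ
  rw [hval]
  exact mul_ne_zero (mul_ne_zero (mul_ne_zero hDe heθ) (mul_ne_zero hc0 hRe)) hc0

end Pool.Agent.H29.N6F
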