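import Pool.Agent.H18.N6F.Targets

/-!
# Row FLCL: the local statement at a place where `q` is anisotropic on `e₀ e₁ e₂`
-/

set_option autoImplicit false

open Polynomial NumberField IsDedekindDomain Matrix Pool.Agent.H32.QC Pool.Agent.H34.N6
  Pool.Agent.H18.N6F

namespace Pool.Agent.H29.N6F

theorem pf_LCL (hMVX : T_MVX) (hLOC : T_LOC) (hOPT : T_OPT) (hCTG : T_CTG) (hQEV : T_QEV) :
    T_LCL := by
  intro F _ _ h2 q d hd hq hHS hTI hCZ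
  obtain ⟨x, hx1, hx2, hx3⟩ := hMVX F h2 q d hd hq hHS hTI hCZ
  obtain ⟨g, z, hg, hdet, hiso⟩ := hLOC F h2 q d hq hTI x hx1 hx2 hx3
  have hsym : ∀ g' : Matrix (Fin 3) (Fin 3) F, (QL q g').IsSymm := by
    intro g'
    unfold QL Matrix.IsSymm
    rw [Matrix.transpose_mul, Matrix.transpose_mul, Matrix.transpose_transpose, hq.eq,
      Matrix.mul_assoc]
  have hgs : ∀ g' : Matrix (Fin 3) (Fin 3) F, (gm (QL q g') d z).IsSymm := fun g' =>
    ((hQEV F (QL q g') d).2.2.2 (hsym g')).2 z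
  obtain ⟨ε, hε, hopen⟩ := hOPT F h2 (gm (QL q g) d z) (hgs g) hdet hiso
  obtain ⟨δ, hδ, hcont⟩ := hCTG F q d z g hg ε hε
  refine ⟨g, δ, hδ, fun g' hg' => ?_⟩
  obtain ⟨h3, h4⟩ := hcont g' hg'
  obtain ⟨h5, h6⟩ := hopen (gm (QL q g') d z) (hgs g') h4
  exact ⟨h3, Or.inr ⟨z, h5, h6⟩⟩

end Pool.Agent.H29.N6F
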